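import Pool.Agent.D0H23.PP.Stm

/-!
# Project PP, module SP: the perturbation is sparse and short
-/

set_option autoImplicit false

namespace Pool.Agent.D0H74.PP

open Finset Filter
open Pool.Agent.D0H23.PP

theorem kk_pos {δ : ℝ} (h1 : δ < 1) : 0 < kk δ := by
  unfold kk
  apply lt_min
  · linarith
  · norm_num

theorem aa_le {δ : ℝ} (h0 : 0 < δ) (h1 : δ < 1) (u : ℕ) :
    ((aa δ u : ℕ) : ℝ) ≤ (δ + kk δ) * u + 2 := by
  have hk := kk_pos h1
  unfold aa bb
  push_cast
  have h2 := Nat.ceil_lt_add_one (show 0 ≤ δ * u by positivity)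
  have h3 := Nat.floor_le (show 0 ≤ kk δ * u by positivity)
  linarith

open Classical in
/-- the number of the perturbed `k` with a given logarithm -/
theorem fib (δ : ℝ) (u : ℕ) (ha : aa δ u ≤ u) (S : Finset ℕ) (hS : ∀ k ∈ S, DD δ k) :
    (S.filter (fun k => Nat.log 2 k = u)).card ≤ 2 ^ (u + 1 - aa δ u) * 2 ^ (bb δ u + 1) := by
  rw [← card_range (2 ^ (u + 1 - aa δ u)), ← card_range (2 ^ (bb δ u + 1)), ← card_product]
  apply card_le_card_of_injOn (fun k => (k / 2 ^ aa δ u, k % 2 ^ aa δ u))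
  · intro k hk
    rw [mem_coe, mem_filter] at hk
    obtain ⟨hkS, hku⟩ := hk
    have h1 := hS k hkS
    unfold DD at h1
    rw [hku] at h1
    have h2 := Nat.lt_pow_succ_log_self (b := 2) (by norm_num) k
    rw [hku] at h2
    rw [mem_coe, mem_product, mem_range, mem_range]
    refine ⟨?_, h1⟩
    simp only
    rw [Nat.div_lt_iff_lt_mul (by positivity), ← pow_add]
    have : u + 1 - aa δ u + aa δ u = u + 1 := by omega
    rw [this]
    exact h2
  · intro k hk k' hk' h
    simp only [Prod.mk.injEq] at h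
    rw [← Nat.div_add_mod k (2 ^ aa δ u), ← Nat.div_add_mod k' (2 ^ aa δ u), h.1, h.2]

theorem t_SP : S_SP := by
  classical
  intro δ h0 h1
  have he := kk_pos h1
  obtain ⟨e, hed⟩ : ∃ e, e = kk δ := ⟨_, rfl⟩
  rw [← hed] at he
  have he1 : e ≤ (1 - δ) / 4 := by rw [hed]; exact min_le_left _ _
  have he2 : e ≤ 1 / 40 := by rw [hed]; exact min_le_right _ _
  obtain ⟨u₀, hu₀⟩ := exists_nat_ge (7 / e)
  have key : ∀ u : ℕ, u₀ ≤ u → (aa δ u : ℝ) + 5 ≤ (1 - e / 2) * u := by
    intro u hu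
    have h2 := aa_le h0 h1 u
    rw [← hed] at h2
    have h3 : 7 / e ≤ (u : ℝ) := hu₀.trans (by exact_mod_cast hu)
    rw [div_le_iff₀ he] at h3
    have h4 : (δ + e) * u ≤ (1 - 3 * e) * u := by
      apply mul_le_mul_of_nonneg_right _ (Nat.cast_nonneg u)
      linarith
    nlinarith
  refine ⟨e / 2, by positivity, by linarith, u₀, ?_, ?_⟩
  · intro k hk
    have hk1 : (1 : ℝ) ≤ k := by exact_mod_cast hk
    unfold HH
    split_ifs with h
    · have h2 := key _ h.1
      have h3 : ((2 ^ Nat.log 2 k : ℕ) : ℝ) ≤ k := by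
        exact_mod_cast Nat.pow_log_le_self 2 (by omega)
      push_cast at h3 ⊢
      calc (2 : ℝ) ^ (aa δ (Nat.log 2 k) + 5)
          = (2 : ℝ) ^ (((aa δ (Nat.log 2 k) + 5 : ℕ) : ℝ)) := (Real.rpow_natCast _ _).symm
        _ ≤ (2 : ℝ) ^ ((Nat.log 2 k : ℝ) * (1 - e / 2)) := by
            apply Real.rpow_le_rpow_of_exponent_le (by norm_num)
            push_cast
            linarith
        _ = ((2 : ℝ) ^ (Nat.log 2 k)) ^ (1 - e / 2) := by
            rw [Real.rpow_mul (by norm_num), Real.rpow_natCast]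
        _ ≤ (k : ℝ) ^ (1 - e / 2) := Real.rpow_le_rpow (by positivity) h3 (by linarith)
    · rw [Nat.cast_one]
      exact Real.one_le_rpow hk1 (by linarith)
  · -- the count
    have hlog2 : 0 < Real.log 2 := Real.log_pos (by norm_num)
    obtain ⟨s, hs⟩ : ∃ s, s = e / 4 := ⟨_, rfl⟩
    have hs0 : 0 < s := by rw [hs]; positivity
    have ev : ∀ᶠ X : ℕ in atTop, 4 * (1 / (s * Real.log 2) + 1) ≤ (X : ℝ) ^ s :=
      ((tendsto_rpow_atTop hs0).comp tendsto_natCast_atTop_atTop).eventually_ge_atTop _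
    filter_upwards [ev, eventually_ge_atTop 1] with X hX hX1
    have hX1' : (1 : ℝ) ≤ X := by exact_mod_cast hX1
    have hX0 : (0 : ℝ) < X := by linarith
    obtain ⟨S, hSd⟩ : ∃ S, S = (range X).filter (fun k => HH δ u₀ k ≠ 1) := ⟨_, rfl⟩
    rw [← hSd]
    have hSm : ∀ k ∈ S, k < X ∧ u₀ ≤ Nat.log 2 k ∧ DD δ k := by
      intro k hk
      rw [hSd, mem_filter, mem_range] at hk
      refine ⟨hk.1, ?_⟩
      by_contra h
      apply hk.2
      unfold HH
      rw [if_neg h]
    have hmaps : ∀ k ∈ S, Nat.log 2 k ∈ range (Nat.log 2 X + 1) := by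
      intro k hk
      rw [mem_range]
      have := Nat.log_mono_right (b := 2) (hSm k hk).1.le
      omega
    have hfib : ∀ u ∈ range (Nat.log 2 X + 1),
        ((S.filter (fun k => Nat.log 2 k = u)).card : ℝ) ≤ 4 * (X : ℝ) ^ (1 - e) := by
      intro u hu
      rw [mem_range] at hu
      by_cases hu0 : u₀ ≤ u
      swap
      · have : S.filter (fun k => Nat.log 2 k = u) = ∅ := by
          apply filter_eq_empty_iff.mpr
          intro k hk hku
          exact hu0 (hku ▸ (hSm k hk).2.1)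
        rw [this, card_empty, Nat.cast_zero]
        positivity
      have hk := key u hu0
      have hau : aa δ u ≤ u := by
        have : ((aa δ u : ℕ) : ℝ) ≤ u := by
          have : (0 : ℝ) ≤ u := Nat.cast_nonneg u
          nlinarith
        exact_mod_cast this
      have h2 := fib δ u hau S (fun k hk => (hSm k hk).2.2)
      have h3 : 2 ^ (u + 1 - aa δ u) * 2 ^ (bb δ u + 1) = 2 ^ (u + 1 - ⌊kk δ * u⌋₊) := by
        rw [← pow_add]
        congr 1
        unfold aa at hau ⊢
        omega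
      rw [h3] at h2
      have h4 : ⌊kk δ * u⌋₊ ≤ u := by
        unfold aa at hau
        omega
      have h5 := Nat.lt_floor_add_one (kk δ * (u : ℝ))
      rw [← hed] at h2 h4 h5
      have h6 : (2 : ℝ) ^ u ≤ X := by
        have a1 : 2 ^ Nat.log 2 X ≤ X := Nat.pow_log_le_self 2 (by omega)
        have a2 : 2 ^ u ≤ 2 ^ Nat.log 2 X := Nat.pow_le_pow_right (by norm_num) (by omega)
        exact_mod_cast a2.trans a1
      calc ((S.filter (fun k => Nat.log 2 k = u)).card : ℝ)
          ≤ ((2 ^ (u + 1 - ⌊e * u⌋₊) : ℕ) : ℝ) := by exact_mod_cast h2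
        _ = (2 : ℝ) ^ (((u + 1 - ⌊e * u⌋₊ : ℕ) : ℝ)) := by
            rw [Real.rpow_natCast]
            push_cast
            rfl
        _ ≤ (2 : ℝ) ^ ((2 : ℝ) + (u : ℝ) * (1 - e)) := by
            apply Real.rpow_le_rpow_of_exponent_le (by norm_num)
            rw [Nat.cast_sub (by omega)]
            push_cast
            linarith
        _ = 4 * ((2 : ℝ) ^ u) ^ (1 - e) := by
            rw [Real.rpow_add (by norm_num), Real.rpow_mul (by norm_num), Real.rpow_natCast]
            norm_num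
        _ ≤ 4 * (X : ℝ) ^ (1 - e) := by
            apply mul_le_mul_of_nonneg_left _ (by norm_num)
            exact Real.rpow_le_rpow (by positivity) h6 (by linarith)
    have hcard : S.card = ∑ u ∈ range (Nat.log 2 X + 1), (S.filter (fun k => Nat.log 2 k = u)).card :=
      card_eq_sum_card_fiberwise hmaps
    have hlogX : (Nat.log 2 X : ℝ) ≤ (X : ℝ) ^ s / (s * Real.log 2) := by
      have a1 : ((2 ^ Nat.log 2 X : ℕ) : ℝ) ≤ X := by
        exact_mod_cast Nat.pow_log_le_self 2 (by omega)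
      push_cast at a1
      have a2 := Real.log_le_log (by positivity) a1
      rw [Real.log_pow] at a2
      have a3 := Real.log_le_rpow_div hX0.le hs0
      have a4 := a2.trans a3
      rw [le_div_iff₀ hs0] at a4
      rw [le_div_iff₀ (by positivity)]
      linarith
    have hXs : (1 : ℝ) ≤ (X : ℝ) ^ s := Real.one_le_rpow hX1' hs0.le
    have hXe : 0 < (X : ℝ) ^ (1 - e) := Real.rpow_pos_of_pos hX0 _
    calc (S.card : ℝ) = ∑ u ∈ range (Nat.log 2 X + 1),
          ((S.filter (fun k => Nat.log 2 k = u)).card : ℝ) := by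
          rw [hcard]
          push_cast
          rfl
      _ ≤ ∑ u ∈ range (Nat.log 2 X + 1), 4 * (X : ℝ) ^ (1 - e) := sum_le_sum hfib
      _ = ((Nat.log 2 X : ℝ) + 1) * (4 * (X : ℝ) ^ (1 - e)) := by
          rw [sum_const, card_range, nsmul_eq_mul]
          push_cast
          ring
      _ ≤ ((X : ℝ) ^ s / (s * Real.log 2) + (X : ℝ) ^ s) * (4 * (X : ℝ) ^ (1 - e)) := by
          apply mul_le_mul_of_nonneg_right _ (by positivity)
          linarith
      _ = (4 * (1 / (s * Real.log 2) + 1)) * (X : ℝ) ^ s * (X : ℝ) ^ (1 - e) := by ring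
      _ ≤ (X : ℝ) ^ s * (X : ℝ) ^ s * (X : ℝ) ^ (1 - e) := by gcongr
      _ = (X : ℝ) ^ (1 - e / 2) := by
          rw [← Real.rpow_add hX0, ← Real.rpow_add hX0]
          congr 1
          rw [hs]
          ring

end Pool.Agent.D0H74.PP
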